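import Pool.Agent.H742R2.NucA

set_option autoImplicit false

/-!
# Stably finite nuclear C*-algebras need not be locally approximable by type I algebras

The C*-algebra is `A = {f ∈ C([0,1], 𝒪₂) : f(0) ∈ ℂ1}`, the unitized cone over the Cuntz algebra `𝒪₂`.

* `𝒪₂` is realised on `ℓ²(ℕ)` by the isometries `δ_n ↦ δ_{2n}`, `δ_n ↦ δ_{2n+1}`; the completely positive
  approximation property is proved with explicit maps (compression to the span of
  `δ_1, …, δ_{2^N - 1}`, and `e_{ab} ↦ N⁻¹ T_a T_b^*`, where `T_a` is the word in the two isometries
  carrying `δ_1` to `δ_a`), and Bernstein polynomials give it for the cone.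
* stable finiteness: an isometry in `M_n(A)` is unitary at `0`, hence everywhere by connectedness.
* If `B ⊆ A` is of type I and almost contains the two elements `t ↦ t s_i`, then the closure `C` of
  `{b(1) : b ∈ B}` is a unital C*-algebra, all of whose irreducible representations contain the
  compact operators.  An irreducible representation vanishing on a maximal ideal of `C` (its existence is
  proved by the Krein-Milman theorem and the GNS construction) is then finite dimensional, which is
  impossible because `C` contains two almost isometries with almost orthogonal ranges.
-/

namespace Pool.Agent.Results.MP_b9f29c_an.ConeOverCuntz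

open Pool.Agent.H742R2 Pool.Agent.Helper234.Nuc

/-- There is a unital separable nuclear stably finite C*-algebra that is not locally approximable by
type I C*-algebras. -/
theorem result : ∃ (A : Type) (_ : CStarAlgebra A), TopologicalSpace.SeparableSpace A ∧
    IsNuclear A ∧ IsStablyFinite A ∧ ¬ IsLocallyTypeI A :=
  ⟨AT, inferInstance, inferInstance, nuclear_AT, stablyFinite_AT, not_locallyTypeI_AT⟩

end Pool.Agent.Results.MP_b9f29c_an.ConeOverCuntz
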